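import Pool.Agent.Lib.MP_6d445e_gt.H15.Stepw

/-!
# ITW: the iteration
-/

universe u v

open Cardinal Filter

namespace Pool.Agent.Lib.MP_6d445e_gt.H14

open Pool.Agent.Lib.MP_100a6c_lc
open Pool.Agent.Lib.MP_c5d73d_lc.F (pr)
open Pool.Agent.Lib.MP_e6fef2_lc
open Pool.Agent.Lib.MP_6d445e_gt.H15 (OkZ okW_of)

theorem okZ_of {I : Type u} [LinearOrder I] {κ : Cardinal.{u}} {β : I}
    {X : I → St I Sw.{u}} (h : OkW κ β X) : OkZ κ β (fun i : Set.Iio β => X i.1) (X β) :=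
  ⟨h.good, h.id, fun i hi => h.succ i.1 hi⟩

theorem itw (hIdw : IdwStatement.{u}) (hStepw : StepwStatement.{u}) (hOkgw : OkgwStatement.{u})
    (hKccw : KccwStatement.{u}) (hPplim : PplimStatement.{u}) (hPrlim : PrlimStatement.{u})
    (hPrc : PrcStatement.{u}) (hPri : PriStatement.{u}) : ItwStatement.{u} := by
  classical
  intro κ I _ _ hI
  obtain ⟨hbd, -⟩ := hIdw.2 κ I hI
  have hnomax : ∀ i : I, ∃ j, i ⋖ j := by
    intro i
    obtain ⟨j, hj⟩ := hbd {i} (by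
      rw [Cardinal.mk_singleton]; exact lt_trans one_lt_aleph0 hI.unc)
    let s : Set I := {β | i < β}
    have hs : s.Nonempty := ⟨j, hj i rfl⟩
    refine ⟨(wellFounded_lt (α := I)).min s hs, (wellFounded_lt (α := I)).min_mem s hs, ?_⟩
    intro k hik hk
    exact (wellFounded_lt (α := I)).not_lt_min s (show k ∈ s from hik) hk
  choose sc hsc using hnomax
  have hinh : Inhabited (St I Sw.{u}) := ⟨⟨H1.RO Sw.{u}, fun x => x, fun _ _ => ⊥, ∅⟩⟩
  obtain ⟨X, hX⟩ : ∃ X : I → St I Sw.{u}, ∀ β, OkW κ β X := by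
    refine all_rec.{u, u + 1} I (St I Sw.{u}) (OkW κ) ?_ ?_
    · intro β X X' h hok
      have h1 : (fun i : Set.Iio β => X i.1) = fun i : Set.Iio β => X' i.1 := by
        funext i; exact h i.1 (le_of_lt i.2)
      have h2 : X β = X' β := h β le_rfl
      have h3 := okZ_of hok
      rw [h1, h2] at h3
      exact okW_of _ _ _ h3
    · intro β X h
      exact hStepw κ I hI β X h
  have hg : GoodC κ (fun l => (X l).A) (fm (fun l => l) fun l => X l) (fun l => (X l).ι)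
      fun l => (X l).M :=
    hOkgw κ I X I (fun l => l) (fun _ _ h => h) (fun l i _ => ⟨i, rfl⟩) hX
  have hne : Nonempty I := by
    rw [← Cardinal.mk_ne_zero_iff, hI.card]
    exact (lt_of_le_of_lt (zero_le) hI.unc).ne'
  obtain ⟨-, htop, htp, hdp⟩ := all_limc.{u} I (fun l => (X l).A) (fm (fun l => l) fun l => X l)
    hg.ch hg.tp
  set C := H1.RO (Thr (fun l => (X l).A) (fm (fun l => l) fun l => X l)) with hC
  let e : ∀ i, (X i).A → C := fun i a => thE i a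
  have htop' : IsTop (fun l => (X l).A) (fm (fun l => l) fun l => X l) e := htop
  have htp' : TP (fun l => (X l).A) (fm (fun l => l) fun l => X l) e := htp
  have hdp' : DP (fun l => (X l).A) e := hdp
  have hpe : ∀ i, PE (e i) := all_pel.{u} I _ _ C e hg.ch htop' htp' hdp' hg.pe
  obtain ⟨hkca, hold⟩ := hKccw κ I hI _ _ _ _ hg C e htop' hdp'
  have hprese : ∀ i, PRES (e i) := hPrlim I (fun l => (X l).A) (fm (fun l => l) fun l => X l) C e
    hg.ch htop' htp' hdp' hg.pres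
  have hpp : ∀ i, PP (fun x => e i ((X i).ι x)) := hPplim I (fun l => (X l).A)
    (fm (fun l => l) fun l => X l) C e (fun l => (X l).ι) hg.ch htop' htp' hdp' hg.pe hg.ιce
    hg.ιpe hg.ιcomp hg.pp
  obtain ⟨i0⟩ := id hne
  have hSwne : Nonempty Sw.{u} := ⟨⟨⟨Set.univ⟩, Set.infinite_univ⟩⟩
  obtain ⟨s0⟩ := id hSwne
  refine ⟨fun i => (X i).A, fun i => (X i).inst, fm (fun l => l) fun l => X l,
    fun i => (X i).ι, fun i => (X i).M, C, inferInstance, e, ?_, hg, htop', hpe, hkca, hold,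
    hpp, ?_⟩
  · have hce : IsCE (fun x => e i0 ((X i0).ι x)) :=
      (all_alg2.{u} _ _ _ _ _ (hg.ιce i0) (htop'.ce i0)).1
    exact ⟨⟨_, _, fun h => Pool.Agent.Lib.MP_c5d73d_lc.F.H62.pr_ne_bot s0
      (hce.inj (h : e i0 ((X i0).ι (pr s0)) = e i0 ((X i0).ι ⊥)))⟩⟩
  · intro i
    obtain ⟨φ₀, hφ, hsur, hφe⟩ := (hX (sc i)).succ i (hsc i)
    refine ⟨fun c => e (sc i) (φ₀ c), (all_alg2.{u} _ _ _ _ _ hφ (htop'.ce (sc i))).1, ?_, ?_⟩
    · intro a
      show e (sc i) (φ₀ (mE (X i).A a)) = e i a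
      rw [hφe]
      exact htop'.comp i (sc i) (hsc i).le a
    · exact hPrc _ _ _ φ₀ (e (sc i)) hφ (htop'.ce (sc i)) ((hPri _ _ φ₀ hφ).2 hsur)
        (hprese (sc i))

end Pool.Agent.Lib.MP_6d445e_gt.H14
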