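import Pool.Agent.Lib.MP_6d445e_gt.W.Iface4
import Pool.Agent.Lib.MP_e6fef2_lc.Iteration

/-!
# LOCW: elements of `N` come from an earlier stage
-/

universe u

open Cardinal Filter

namespace Pool.Agent.Lib.MP_6d445e_gt.H14

open Pool.Agent.Lib.MP_100a6c_lc
open Pool.Agent.Lib.MP_c5d73d_lc.F (pr)
open Pool.Agent.Lib.MP_e6fef2_lc

/-- A `σ`-complete subalgebra is closed under suprema over countable types. -/
theorem sigC_iSup {A : Type u} [CompleteBooleanAlgebra A] {M : Set A} (hM : SigC M) {T : Type u}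
    [Countable T] (x : T → A) (hx : ∀ t, x t ∈ M) : ⨆ t, x t ∈ M := by
  rcases isEmpty_or_nonempty T with hT | hT
  · rw [iSup_of_empty, ← compl_top]
    exact hM.compl _ hM.top
  · obtain ⟨g, hg⟩ := exists_surjective_nat T
    rw [← hg.iSup_comp]
    exact hM.sup _ fun n => hx _

theorem locw : LocwStatement.{u} := by
  intro κ L _ A _ f ι M hG i hi hlim
  have hch := hG.ch
  have hdp := hG.dp i hlim
  classical
  obtain ⟨-, hcount, -, -, hnorm, hfun, -⟩ := all_club.{u}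
  have alg := fun j (hj : j ≤ i) => all_alg (A j) (A i) (f j i) (hch.ce j i hj)
  let D : A i → Set (A i) := fun a => {d | (d ≤ a ∨ d ≤ aᶜ) ∧ ∃ j < i, ∃ d' : A j, d = f j i d'}
  have hD : ∀ a, sSup (D a) = ⊤ := by
    intro a
    by_contra hcon
    have hc : (sSup (D a))ᶜ ≠ ⊥ := by
      intro h
      apply hcon
      rwa [compl_eq_bot] at h
    -- a nonzero element below the complement which decides `a`
    have h1 : ∃ c1 : A i, c1 ≠ ⊥ ∧ c1 ≤ (sSup (D a))ᶜ ∧ (c1 ≤ a ∨ c1 ≤ aᶜ) := by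
      by_cases h2 : (sSup (D a))ᶜ ⊓ a = ⊥
      · refine ⟨(sSup (D a))ᶜ, hc, le_rfl, Or.inr ?_⟩
        rw [le_compl_iff_disjoint_right, disjoint_iff]
        exact h2
      · exact ⟨(sSup (D a))ᶜ ⊓ a, h2, inf_le_left, Or.inl inf_le_right⟩
    obtain ⟨c1, hc1, hc1s, hc1a⟩ := h1
    obtain ⟨d, hdc, hd0, s, hs, -, hsi, hds⟩ := hdp c1 hc1
    obtain ⟨j, hji, hj⟩ := hi s hs hsi
    have h3 : d = f j i (prj (f j i) d) := by
      apply le_antisymm
      · exact (alg j hji.le).2.2.2.2.2.2.2.2.2.1 d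
      · conv_rhs => rw [hds]
        refine le_iInf₂ fun k hk => ?_
        have hkj : k ≤ j := (hj k hk).le
        have h4 := (all_alg2 (A k) (A j) (A i) (f k j) (f j i) (hch.ce k j hkj)
          (hch.ce j i hji.le)).2.1 d
        have h5 : (fun a => f j i (f k j a)) = f k i := by
          funext a
          exact hch.comp k j i hkj hji.le a
        rw [h5] at h4
        rw [h4, ← hch.comp k j i hkj hji.le, (alg j hji.le).2.2.2.2.1]
        exact (all_alg (A k) (A j) (f k j) (hch.ce k j hkj)).2.2.2.2.2.2.2.2.2.1 _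
    have h6 : d ∈ D a := ⟨hc1a.imp hdc.trans hdc.trans, j, hji, _, h3⟩
    apply hd0
    rw [← le_bot_iff, ← inf_compl_eq_bot (a := sSup (D a))]
    exact le_inf (le_sSup h6) (hdc.trans hc1s)
  -- the stages
  have hst : ∀ d : A i, ∃ j, j < i ∧ ∃ d' : A j, (∃ a, d ∈ D a) → d = f j i d' := by
    intro d
    by_cases h : ∃ a, d ∈ D a
    · obtain ⟨a, -, j, hj, d', hd'⟩ := h
      exact ⟨j, hj, d', fun _ => hd'⟩
    · obtain ⟨k, hk, -⟩ := hi ∅ Set.countable_empty (by simp)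
      exact ⟨k, hk, ⊤, fun h' => absurd h' h⟩
  choose st hst1 dd hst2 using hst
  have hq : ∀ d : A i, ∀ᶠ N in club, (∀ s : Sw.{u}, SG N s → ∃ x ∈ M (st d),
      ι (st d) (pr s) ⊓ (gen (A (st d)) N ⊓ dd d) = ι (st d) (pr s) ⊓ x) ∧
      gen (A i) N ≤ f (st d) i (gen (A (st d)) N) := by
    intro d
    filter_upwards [all_rdl Sw.{u} (A (st d)) (ι (st d)) (M (st d)) (hG.ιce _) (hG.Mdm _)
      (hG.sig _), all_club.{u}.2.2.2.1 (A (st d)) (dd d),
      (all_gen.{u} (A (st d))).2 (A i) (f (st d) i) (hch.ce _ _ (hst1 d).le)] with N h1 h2 h3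
    exact ⟨fun s hs => h1 s hs _ h2, h3⟩
  filter_upwards [hcount, hfun (A i) (Set (A i)) D, hnorm (A i) _ hq] with N hN hND hNq s hs
  have hcN : {d : A i | In N d}.Countable := by
    have hinj : Function.Injective (fun d : A i => (⟨A i, d⟩ : El.{u})) := by
      intro x y hxy
      simpa using hxy
    exact hN.preimage hinj
  obtain ⟨j, hji, hj⟩ := hi (st '' {d : A i | In N d}) (hcN.image st) (by
    rintro _ ⟨d, -, rfl⟩
    exact hst1 d)
  have hx : ∀ d : {d : A i // In N d}, ∃ x ∈ M (st d.1),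
      ι (st d.1) (pr s) ⊓ (gen (A (st d.1)) N ⊓ dd d.1) = ι (st d.1) (pr s) ⊓ x :=
    fun d => (hNq d.1 d.2).1 s hs
  choose x hxM hx using hx
  -- the elements of `N` and of the stages agree
  have hagr : ∀ (d : {d : A i // In N d}) (a : A i), d.1 ∈ D a →
      ι i (pr s) ⊓ (gen (A i) N ⊓ d.1) =
        ι i (pr s) ⊓ (gen (A i) N ⊓ f j i (f (st d.1) j (x d))) := by
    intro d a hda
    have hkj : st d.1 ≤ j := (hj _ ⟨d.1, d.2, rfl⟩).le
    have hki : st d.1 ≤ i := hkj.trans hji.le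
    have e1 := congrArg (f (st d.1) i) (hx d)
    rw [(alg _ hki).2.2.1, (alg _ hki).2.2.1, (alg _ hki).2.2.1, hG.ιcomp _ _ hki,
      ← hst2 d.1 ⟨a, hda⟩] at e1
    rw [hch.comp _ _ _ hkj hji.le]
    have e2 : gen (A i) N = gen (A i) N ⊓ f (st d.1) i (gen (A (st d.1)) N) :=
      (inf_eq_left.2 (hNq d.1 d.2).2).symm
    calc ι i (pr s) ⊓ (gen (A i) N ⊓ d.1)
        = gen (A i) N ⊓ (ι i (pr s) ⊓ (f (st d.1) i (gen (A (st d.1)) N) ⊓ d.1)) := by
          conv_lhs => rw [e2]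
          ac_rfl
      _ = gen (A i) N ⊓ (ι i (pr s) ⊓ f (st d.1) i (x d)) := by rw [e1]
      _ = ι i (pr s) ⊓ (gen (A i) N ⊓ f (st d.1) i (x d)) := by ac_rfl
  refine ⟨j, hji, fun a ha => ?_⟩
  let T : Type u := {d : {d : A i // In N d} // d.1 ∈ D a ∧ d.1 ≤ a}
  have hTc : Countable T := by
    have : Countable {d : A i // In N d} := hcN.to_subtype
    infer_instance
  refine ⟨⨆ t : T, f (st t.1.1) j (x t.1), sigC_iSup (hG.sig j) _ fun t =>
    hG.Mmap _ _ (hj _ ⟨t.1.1, t.1.2, rfl⟩).le _ (hxM t.1), ?_⟩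
  rw [(alg j hji.le).2.2.2.2.2.1]
  have hgen : gen (A i) N ≤ ⨆ (d : A i) (_ : d ∈ D a) (_ : In N d), d :=
    iInf_le_of_le (D a) (iInf_le_of_le (hND a ha) (iInf_le_of_le (hD a) le_rfl))
  have hU : gen (A i) N ⊓ a = gen (A i) N ⊓ ⨆ t : T, t.1.1 := by
    apply le_antisymm
    · refine le_inf inf_le_left ?_
      refine (inf_le_inf_right a hgen).trans ?_
      rw [iSup_inf_eq]
      refine iSup_le fun d => ?_
      rw [iSup_inf_eq]
      refine iSup_le fun hda => ?_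
      rw [iSup_inf_eq]
      refine iSup_le fun hdN => ?_
      rcases hda.1 with h | h
      · exact inf_le_left.trans (le_iSup (fun t : T => t.1.1) ⟨⟨d, hdN⟩, hda, h⟩)
      · refine (inf_le_inf_right a h).trans ?_
        rw [compl_inf_self]
        exact bot_le
    · exact le_inf inf_le_left (inf_le_right.trans (iSup_le fun t => t.2.2))
  rw [hU, inf_iSup_eq, inf_iSup_eq, inf_iSup_eq, inf_iSup_eq]
  exact iSup_congr fun t => hagr t.1 a t.2.1

end Pool.Agent.Lib.MP_6d445e_gt.H14
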